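import Pool.Agent.QS31.Sample

/-!
Band separators for a random separation of small cost, and one separator which cuts off every
vertex that the random separation cuts off with probability at least one half.

The proof is the one of helper42 (board post 1079).
-/

namespace Pool.Agent.QS31

open Finset

variable {V : Type*} [Fintype V] [DecidableEq V] {G : SimpleGraph V}

/-- a cost of vertex sets: monotone, subadditive, and with the exchange property of the
independence number -/
structure IsCost (G : SimpleGraph V) (c : Finset V → ℝ) : Prop where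
  nonneg : ∀ T, 0 ≤ c T
  mono : ∀ {S T : Finset V}, S ⊆ T → c S ≤ c T
  sub : ∀ S T : Finset V, c (S ∪ T) ≤ c S + c T
  exch : ∀ T : Finset V, ∃ ι : V → ℝ, (∀ v, 0 ≤ ι v) ∧ (∑ v ∈ T, ι v = c T) ∧
    (∀ U ⊆ T, ∑ v ∈ U, ι v ≤ c U) ∧
    ∀ C E : Finset V, Disjoint C E → (∀ x ∈ C, ∀ y ∈ E, ¬ G.Adj x y) →
      c (T ∩ C) + ∑ v ∈ T ∩ E, ι v ≤ c T

variable {Θ : Type*} [Fintype Θ]

/-- a random separation `(A, X)` -/
structure IsSep (G : SimpleGraph V) (w : Θ → ℝ) (A X : Θ → Finset V) : Prop where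
  nonneg : ∀ θ, 0 ≤ w θ
  sum_one : ∑ θ, w θ = 1
  disj : ∀ θ, Disjoint (A θ) (X θ)
  bdry : ∀ θ, ∀ u ∈ A θ, ∀ v, G.Adj u v → v ∈ A θ ∨ v ∈ X θ

/-- probability of lying in a random set -/
noncomputable def pr (w : Θ → ℝ) (A : Θ → Finset V) (v : V) : ℝ :=
  ∑ θ, w θ * (if v ∈ A θ then 1 else 0)

/-- number of the sampled sets containing `v` -/
def cnt {r : ℕ} (A : Θ → Finset V) (ω : Fin r → Θ) (v : V) : ℝ :=
  ∑ i, (if v ∈ A (ω i) then (1 : ℝ) else 0)

theorem pr_nonneg {w : Θ → ℝ} (hw : ∀ θ, 0 ≤ w θ) (A : Θ → Finset V) (v : V) :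
    0 ≤ pr w A v :=
  Finset.sum_nonneg fun θ _ => mul_nonneg (hw θ) (by split_ifs <;> norm_num)

theorem IsSep.pr_union {w : Θ → ℝ} {A X : Θ → Finset V} (h : IsSep G w A X) (v : V) :
    pr w (fun θ => A θ ∪ X θ) v = pr w A v + pr w X v := by
  unfold pr
  rw [← Finset.sum_add_distrib]
  refine Finset.sum_congr rfl fun θ _ => ?_
  rw [← mul_add]
  congr 1
  by_cases hA : v ∈ A θ
  · have hX : v ∉ X θ := Finset.disjoint_left.mp (h.disj θ) hA
    simp [hA, hX]
  · by_cases hX : v ∈ X θ <;> simp [hA, hX]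

theorem IsSep.pr_adj {w : Θ → ℝ} {A X : Θ → Finset V} (h : IsSep G w A X) {u v : V}
    (huv : G.Adj u v) : pr w A v ≤ pr w A u + pr w X u := by
  rw [← h.pr_union]
  unfold pr
  refine Finset.sum_le_sum fun θ _ => mul_le_mul_of_nonneg_left ?_ (h.nonneg θ)
  by_cases hv : v ∈ A θ
  · have := h.bdry θ v hv u huv.symm
    have hu : u ∈ A θ ∪ X θ := by simpa using this
    simp [hv, hu]
  · simp only [hv, if_false]; split_ifs <;> norm_num

/-- `T` separates `{a + p < x}` from `{y ≤ a}` inside the band between them -/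
def IsBand (G : SimpleGraph V) (w : Θ → ℝ) (A X : Θ → Finset V) (T : Finset V)
    (x y : ℝ) : Prop :=
  (∀ v ∈ T, pr w A v < y ∧ x ≤ pr w A v + pr w X v) ∧
  ∃ D : Finset V, (∀ v, pr w A v + pr w X v < x → v ∈ D) ∧ (∀ v ∈ D, pr w A v < y) ∧
    Disjoint D T ∧ ∀ u ∈ D, ∀ v, G.Adj u v → v ∈ D ∨ v ∈ T

theorem base_band {w : Θ → ℝ} {A X : Θ → Finset V} (h : IsSep G w A X) {x y : ℝ} (hxy : x ≤ y) :
    ∃ T, IsBand G w A X T x y := by
  classical
  refine ⟨Finset.univ.filter fun v => pr w A v < y ∧ y ≤ pr w A v + pr w X v, ?_,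
    Finset.univ.filter fun v => pr w A v + pr w X v < y, ?_, ?_, ?_, ?_⟩
  · intro v hv
    simp only [mem_filter, mem_univ, true_and] at hv
    exact ⟨hv.1, hxy.trans hv.2⟩
  · intro v hv
    simp only [mem_filter, mem_univ, true_and]
    exact hv.trans_le hxy
  · intro v hv
    simp only [mem_filter, mem_univ, true_and] at hv
    have := pr_nonneg h.nonneg X v
    linarith
  · rw [Finset.disjoint_left]
    intro v hv hv'
    simp only [mem_filter, mem_univ, true_and] at hv hv'
    linarith [hv'.2]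
  · intro u hu v huv
    simp only [mem_filter, mem_univ, true_and] at hu ⊢
    have := h.pr_adj huv
    by_cases hv : pr w A v + pr w X v < y
    · exact Or.inl hv
    · exact Or.inr ⟨by linarith, not_lt.mp hv⟩

/-- gluing two band separators along the level sets of a sample -/
theorem glue_band {w : Θ → ℝ} {A X : Θ → Finset V} (h : IsSep G w A X) {r : ℕ}
    (ω : Fin r → Θ) {x₁ x₂ x₃ x₄ μ : ℝ} (h12 : x₁ ≤ x₂) (h23 : x₂ ≤ x₃) (h34 : x₃ ≤ x₄)
    {T₁ T₂ : Finset V} (hT₁ : IsBand G w A X T₁ x₁ x₂) (hT₂ : IsBand G w A X T₂ x₃ x₄) :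
    ∃ C E M : Finset V, (∀ v, v ∈ C ↔ μ ≤ cnt A ω v) ∧
      (∀ v, v ∈ E ↔ cnt (fun θ => A θ ∪ X θ) ω v < μ) ∧
      (∀ v ∈ M, v ∉ C ∧ v ∉ E) ∧ Disjoint C E ∧ (∀ x ∈ C, ∀ y ∈ E, ¬ G.Adj x y) ∧
      (∀ v ∈ M, ∃ i, v ∈ X (ω i)) ∧ (∀ v, v ∉ C → v ∉ E → ∃ i, v ∈ X (ω i)) ∧
      IsBand G w A X ((T₁ ∩ C) ∪ (T₂ ∩ E) ∪ M) x₁ x₄ := by
  classical
  have hle : ∀ v, cnt A ω v ≤ cnt (fun θ => A θ ∪ X θ) ω v := by
    intro v
    unfold cnt
    refine Finset.sum_le_sum fun i _ => ?_
    by_cases hA : v ∈ A (ω i)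
    · have : v ∈ A (ω i) ∪ X (ω i) := Finset.mem_union_left _ hA
      simp [hA, this]
    · simp only [hA, if_false]; split_ifs <;> norm_num
  have hadj : ∀ u v, G.Adj u v → cnt A ω v ≤ cnt (fun θ => A θ ∪ X θ) ω u := by
    intro u v huv
    unfold cnt
    refine Finset.sum_le_sum fun i _ => ?_
    by_cases hv : v ∈ A (ω i)
    · have := h.bdry (ω i) v hv u huv.symm
      have hu : u ∈ A (ω i) ∪ X (ω i) := by simpa using this
      simp [hv, hu]
    · simp only [hv, if_false]; split_ifs <;> norm_num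
  obtain ⟨hT₁r, D₁, hD₁l, hD₁h, hD₁T, hD₁b⟩ := hT₁
  obtain ⟨hT₂r, D₂, hD₂l, hD₂h, hD₂T, hD₂b⟩ := hT₂
  have hmid : ∀ v, ¬ μ ≤ cnt A ω v → ¬ cnt (fun θ => A θ ∪ X θ) ω v < μ →
      ∃ i, v ∈ X (ω i) := by
    intro v h1 h2
    by_contra hcon
    push Not at hcon
    have : cnt (fun θ => A θ ∪ X θ) ω v = cnt A ω v := by
      unfold cnt
      refine Finset.sum_congr rfl fun i _ => ?_
      have := hcon i
      simp [this]
    rw [this] at h2
    exact h2 (not_le.mp h1)
  refine ⟨Finset.univ.filter fun v => μ ≤ cnt A ω v,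
    Finset.univ.filter fun v => cnt (fun θ => A θ ∪ X θ) ω v < μ,
    Finset.univ.filter fun v => (¬ μ ≤ cnt A ω v ∧ ¬ cnt (fun θ => A θ ∪ X θ) ω v < μ) ∧
      pr w A v < x₄ ∧ x₁ ≤ pr w A v + pr w X v, by simp, by simp, ?_, ?_, ?_, ?_, ?_, ?_⟩
  · intro v hv
    simp only [mem_filter, mem_univ, true_and] at hv ⊢
    exact hv.1
  · rw [Finset.disjoint_left]
    intro v hv hv'
    simp only [mem_filter, mem_univ, true_and] at hv hv'
    linarith [hle v]
  · intro x hx y hy hxy
    simp only [mem_filter, mem_univ, true_and] at hx hy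
    linarith [hadj y x hxy.symm]
  · intro v hv
    simp only [mem_filter, mem_univ, true_and] at hv
    exact hmid v hv.1.1 hv.1.2
  · intro v h1 h2
    simp only [mem_filter, mem_univ, true_and] at h1 h2
    exact hmid v h1 h2
  · constructor
    · intro v hv
      simp only [mem_union, mem_inter, mem_filter, mem_univ, true_and] at hv
      rcases hv with (hv | hv) | hv
      · have := hT₁r v hv.1
        exact ⟨by linarith [this.1], this.2⟩
      · have := hT₂r v hv.1
        exact ⟨this.1, by linarith [this.2]⟩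
      · exact hv.2
    · refine ⟨Finset.univ.filter fun v => pr w A v + pr w X v < x₁ ∨
        (pr w A v < x₄ ∧ μ ≤ cnt A ω v ∧ v ∈ D₁) ∨
        (pr w A v < x₄ ∧ cnt (fun θ => A θ ∪ X θ) ω v < μ ∧ v ∈ D₂), ?_, ?_, ?_, ?_⟩
      · intro v hv
        simp only [mem_filter, mem_univ, true_and]
        exact Or.inl hv
      · intro v hv
        simp only [mem_filter, mem_univ, true_and] at hv
        rcases hv with hv | hv | hv
        · have := pr_nonneg h.nonneg X v
          linarith
        · exact hv.1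
        · exact hv.1
      · rw [Finset.disjoint_left]
        intro v hv hv'
        simp only [mem_union, mem_inter, mem_filter, mem_univ, true_and] at hv hv'
        have hx : x₁ ≤ pr w A v + pr w X v := by
          rcases hv' with (hv' | hv') | hv'
          · exact (hT₁r v hv'.1).2
          · linarith [(hT₂r v hv'.1).2]
          · exact hv'.2.2
        rcases hv with hv | hv | hv
        · linarith
        · rcases hv' with (hv' | hv') | hv'
          · exact Finset.disjoint_left.mp hD₁T hv.2.2 hv'.1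
          · linarith [hle v, hv'.2, hv.2.1]
          · exact hv'.1.1 hv.2.1
        · rcases hv' with (hv' | hv') | hv'
          · linarith [hle v, hv'.2, hv.2.1]
          · exact Finset.disjoint_left.mp hD₂T hv.2.2 hv'.1
          · exact hv'.1.2 hv.2.1
      · intro u hu v huv
        simp only [mem_union, mem_inter, mem_filter, mem_univ, true_and] at hu ⊢
        by_cases hvl : pr w A v + pr w X v < x₁
        · exact Or.inl (Or.inl hvl)
        have hvl' : x₁ ≤ pr w A v + pr w X v := not_lt.mp hvl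
        -- `v` lies below `x₄`
        have key1 : u ∈ D₁ → pr w A v < x₄ := by
          intro hu1
          rcases hD₁b u hu1 v huv with h1 | h1
          · linarith [hD₁h v h1]
          · linarith [(hT₁r v h1).1]
        have key2 : u ∈ D₂ → pr w A v < x₄ := by
          intro hu1
          rcases hD₂b u hu1 v huv with h1 | h1
          · linarith [hD₂h v h1]
          · linarith [(hT₂r v h1).1]
        -- `C` case
        have keyC : u ∈ D₁ → μ ≤ cnt A ω v →
            (pr w A v < x₄ ∧ μ ≤ cnt A ω v ∧ v ∈ D₁) ∨ (v ∈ T₁ ∧ μ ≤ cnt A ω v) := by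
          intro hu1 hvC
          rcases hD₁b u hu1 v huv with h1 | h1
          · exact Or.inl ⟨key1 hu1, hvC, h1⟩
          · exact Or.inr ⟨h1, hvC⟩
        have keyE : u ∈ D₂ → cnt (fun θ => A θ ∪ X θ) ω v < μ →
            (pr w A v < x₄ ∧ cnt (fun θ => A θ ∪ X θ) ω v < μ ∧ v ∈ D₂) ∨
              (v ∈ T₂ ∧ cnt (fun θ => A θ ∪ X θ) ω v < μ) := by
          intro hu1 hvE
          rcases hD₂b u hu1 v huv with h1 | h1
          · exact Or.inl ⟨key2 hu1, hvE, h1⟩
          · exact Or.inr ⟨h1, hvE⟩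
        by_cases hvC : μ ≤ cnt A ω v
        · have hu1 : u ∈ D₁ := by
            rcases hu with hu | hu | hu
            · exact hD₁l u hu
            · exact hu.2.2
            · exact absurd (hadj u v huv) (by linarith [hu.2.1])
          rcases keyC hu1 hvC with h1 | h1
          · exact Or.inl (Or.inr (Or.inl h1))
          · exact Or.inr (Or.inl (Or.inl h1))
        · by_cases hvE : cnt (fun θ => A θ ∪ X θ) ω v < μ
          · have hu2 : u ∈ D₂ := by
              rcases hu with hu | hu | hu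
              · exact hD₂l u (by linarith)
              · exact absurd (hadj v u huv.symm) (by linarith [hu.2.1])
              · exact hu.2.2
            rcases keyE hu2 hvE with h1 | h1
            · exact Or.inl (Or.inr (Or.inr h1))
            · exact Or.inr (Or.inl (Or.inr h1))
          · refine Or.inr (Or.inr ⟨⟨hvC, hvE⟩, ?_, hvl'⟩)
            rcases hu with hu | hu | hu
            · exact key1 (hD₁l u hu)
            · exact key1 hu.2.2
            · exact key2 hu.2.2

end Pool.Agent.QS31
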