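import Pool.Agent.QS31.Band

/-!
The separator theorem: a random separation of cost at most `k` which misses every vertex of `S`
with probability at least one half can be replaced by one separator of cost at most `C k`.
-/

namespace Pool.Agent.QS31

open Finset

variable {V : Type*} [Fintype V] [DecidableEq V] {G : SimpleGraph V}
variable {Θ : Type*} [Fintype Θ]

theorem IsCost.biUnion_le {c : Finset V → ℝ} (hc : IsCost G c) (hc0 : c ∅ ≤ 0) {κ : Type*}
    [DecidableEq κ] (s : Finset κ) (F : κ → Finset V) :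
    c (s.biUnion F) ≤ ∑ i ∈ s, c (F i) := by
  induction s using Finset.induction_on with
  | empty => simpa using hc0
  | insert a s ha ih =>
    rw [Finset.biUnion_insert, Finset.sum_insert ha]
    exact (hc.sub _ _).trans (by linarith)

/-- the key lemma -/
theorem key_lemma {c : Finset V → ℝ} (hc : IsCost G c) (hc0 : c ∅ ≤ 0) {w : Θ → ℝ}
    {A X : Θ → Finset V} (h : IsSep G w A X) {k : ℝ} (hk : ∀ θ, c (X θ) ≤ k) {r : ℕ} (hr : 0 < r)
    {x g : ℝ} (hg : 0 < g) {T₁ T₂ : Finset V} (hT₁ : IsBand G w A X T₁ x (x + g))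
    (hT₂ : IsBand G w A X T₂ (x + 2 * g) (x + 3 * g)) :
    ∃ T, IsBand G w A X T x (x + 3 * g) ∧
      c T ≤ 3 * r * k + 1 / (r * g ^ 2) * (c T₁ + c T₂) := by
  classical
  obtain ⟨ι₁, hι₁0, hι₁T, hι₁U, hι₁E⟩ := hc.exch T₁
  obtain ⟨ι₂, hι₂0, hι₂T, hι₂U, hι₂E⟩ := hc.exch T₂
  set m : ℝ := x + 3 / 2 * g with hm
  -- the expected value of what has to be paid
  have hE1 : ∀ v ∈ T₁, EE w r (fun ω => if r * m ≤ cnt A ω v then (1 : ℝ) else 0)
      ≤ 1 / (r * g ^ 2) := by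
    intro v hv
    have := (hT₁.1 v hv).1
    exact cheb_up h.nonneg h.sum_one (fun θ => v ∈ A θ) hr (a := pr w A v) rfl hg
      (by rw [hm]; linarith)
  have hE2 : ∀ v ∈ T₂, EE w r (fun ω => if cnt (fun θ => A θ ∪ X θ) ω v < r * m then (1 : ℝ) else 0)
      ≤ 1 / (r * g ^ 2) := by
    intro v hv
    have h2 := (hT₂.1 v hv).2
    rw [← h.pr_union] at h2
    exact cheb_down h.nonneg h.sum_one (fun θ => v ∈ A θ ∪ X θ) hr
      (a := pr w (fun θ => A θ ∪ X θ) v) rfl hg (by rw [hm]; linarith)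
  have hEtot : EE w r (fun ω =>
      (∑ v ∈ T₁, ι₁ v * (if r * m ≤ cnt A ω v then (1 : ℝ) else 0)) +
      ∑ v ∈ T₂, ι₂ v * (if cnt (fun θ => A θ ∪ X θ) ω v < r * m then (1 : ℝ) else 0)) ≤
      1 / (r * g ^ 2) * (c T₁ + c T₂) := by
    have hsplit : 1 / (r * g ^ 2) * (c T₁ + c T₂) =
        ∑ v ∈ T₁, 1 / (r * g ^ 2) * ι₁ v + ∑ v ∈ T₂, 1 / (r * g ^ 2) * ι₂ v := by
      rw [← hι₁T, ← hι₂T, ← Finset.mul_sum, ← Finset.mul_sum]; ring
    rw [EE_add, EE_sum, EE_sum, hsplit]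
    refine add_le_add (Finset.sum_le_sum fun v hv => ?_) (Finset.sum_le_sum fun v hv => ?_)
    · rw [EE_smul, mul_comm (1 / (r * g ^ 2))]
      exact mul_le_mul_of_nonneg_left (hE1 v hv) (hι₁0 v)
    · rw [EE_smul, mul_comm (1 / (r * g ^ 2))]
      exact mul_le_mul_of_nonneg_left (hE2 v hv) (hι₂0 v)
  obtain ⟨ω, hω⟩ := exists_le_EE h.nonneg h.sum_one _ hEtot
  obtain ⟨C, E, M, hCm, hEm, hMm, hdisj, hanti, hMX, hout, hband⟩ :=
    glue_band h ω (μ := r * m) (by linarith) (by linarith) (by linarith) hT₁ hT₂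
  refine ⟨_, hband, ?_⟩
  -- the union of the sampled sets `X`
  have hU : ∀ U : Finset V, (∀ v ∈ U, ∃ i, v ∈ X (ω i)) → c U ≤ r * k := by
    intro U hU
    have h1 : U ⊆ (Finset.univ : Finset (Fin r)).biUnion fun i => X (ω i) := by
      intro v hv
      obtain ⟨i, hi⟩ := hU v hv
      exact Finset.mem_biUnion.mpr ⟨i, Finset.mem_univ _, hi⟩
    calc c U ≤ c ((Finset.univ : Finset (Fin r)).biUnion fun i => X (ω i)) := hc.mono h1
      _ ≤ ∑ i : Fin r, c (X (ω i)) := hc.biUnion_le hc0 _ _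
      _ ≤ ∑ _i : Fin r, k := Finset.sum_le_sum fun i _ => hk _
      _ = r * k := by simp
  have hM : c M ≤ r * k := hU M hMX
  -- splitting `T₁`
  have split : ∀ (T P Q : Finset V) (ι : V → ℝ), (∀ v, 0 ≤ ι v) → (∑ v ∈ T, ι v = c T) →
      (∀ U ⊆ T, ∑ v ∈ U, ι v ≤ c U) → Disjoint P Q →
      (∀ v, v ∉ P → v ∉ Q → ∃ i, v ∈ X (ω i)) →
      c (T ∩ P) + ∑ v ∈ T ∩ Q, ι v ≤ c T → c (T ∩ P) ≤ ∑ v ∈ T ∩ P, ι v + r * k := by
    intro T P Q ι hι0 hιT hιU hPQ hPQX hex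
    have h1 : ∑ v ∈ T, ι v = (∑ v ∈ T ∩ P, ι v + ∑ v ∈ T ∩ Q, ι v) +
        ∑ v ∈ (T \ P) \ Q, ι v := by
      rw [← Finset.sum_union, ← Finset.sum_union]
      · congr 1
        ext v; simp only [mem_union, mem_inter, mem_sdiff]; tauto
      · rw [Finset.disjoint_left]; intro v hv hv'
        simp only [mem_union, mem_inter, mem_sdiff] at hv hv'; tauto
      · rw [Finset.disjoint_left]; intro v hv hv'
        simp only [mem_inter] at hv hv'
        exact Finset.disjoint_left.mp hPQ hv.2 hv'.2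
    have h2 : ∑ v ∈ (T \ P) \ Q, ι v ≤ r * k := by
      refine (hιU _ (fun v hv => ?_)).trans (hU _ fun v hv => ?_)
      · simp only [mem_sdiff] at hv; exact hv.1.1
      · simp only [mem_sdiff] at hv; exact hPQX v hv.1.2 hv.2
    linarith
  have hC := split T₁ C E ι₁ hι₁0 hι₁T hι₁U hdisj hout (hι₁E C E hdisj hanti)
  have hE := split T₂ E C ι₂ hι₂0 hι₂T hι₂U hdisj.symm (fun v h1 h2 => hout v h2 h1)
    (hι₂E E C hdisj.symm fun x hx y hy hxy => hanti y hy x hx hxy.symm)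
  have h1 : ∑ v ∈ T₁ ∩ C, ι₁ v = ∑ v ∈ T₁, ι₁ v * (if r * m ≤ cnt A ω v then (1 : ℝ) else 0) := by
    rw [← Finset.filter_mem_eq_inter, Finset.sum_filter]
    refine Finset.sum_congr rfl fun v _ => ?_
    by_cases hv : v ∈ C
    · simp [hv, (hCm v).mp hv]
    · have : ¬ r * m ≤ cnt A ω v := fun h' => hv ((hCm v).mpr h')
      simp [hv, this]
  have h2 : ∑ v ∈ T₂ ∩ E, ι₂ v =
      ∑ v ∈ T₂, ι₂ v * (if cnt (fun θ => A θ ∪ X θ) ω v < r * m then (1 : ℝ) else 0) := by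
    rw [← Finset.filter_mem_eq_inter, Finset.sum_filter]
    refine Finset.sum_congr rfl fun v _ => ?_
    by_cases hv : v ∈ E
    · simp [hv, (hEm v).mp hv]
    · have : ¬ cnt (fun θ => A θ ∪ X θ) ω v < r * m := fun h' => hv ((hEm v).mpr h')
      simp [hv, this]
  have h3 := hc.sub ((T₁ ∩ C) ∪ (T₂ ∩ E)) M
  have h4 := hc.sub (T₁ ∩ C) (T₂ ∩ E)
  rw [h1] at hC
  rw [h2] at hE
  linarith

/-- all bands of width `3 ^ (-i) / 4` -/
theorem band_all {c : Finset V → ℝ} (hc : IsCost G c) (hc0 : c ∅ ≤ 0) {w : Θ → ℝ}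
    {A X : Θ → Finset V} (h : IsSep G w A X) {k : ℝ} (hk0 : 0 < k) (hk : ∀ θ, c (X θ) ≤ k)
    (i : ℕ) : ∀ x : ℝ, ∃ T, IsBand G w A X T x (x + (1 / 3) ^ i / 4) ∧
      c T ≤ 31104 * 9 ^ i * k := by
  obtain ⟨N, hN⟩ : ∃ N : ℕ, c Finset.univ / k < 9 ^ N := pow_unbounded_of_one_lt _ (by norm_num)
  -- downward induction
  have hbase : ∀ j, N ≤ j → ∀ x : ℝ, ∃ T, IsBand G w A X T x (x + (1 / 3) ^ j / 4) ∧
      c T ≤ 31104 * 9 ^ j * k := by
    intro j hj x
    obtain ⟨T, hT⟩ := base_band h (x := x) (y := x + (1 / 3) ^ j / 4)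
      (by have : (0 : ℝ) < (1 / 3) ^ j / 4 := by positivity
          linarith)
    refine ⟨T, hT, (hc.mono (Finset.subset_univ T)).trans ?_⟩
    rw [div_lt_iff₀ hk0] at hN
    have h1 : (9 : ℝ) ^ N * k ≤ 9 ^ j * k := by
      gcongr
      norm_num
    have h2 : (0 : ℝ) < 9 ^ j * k := by positivity
    nlinarith
  have hstep : ∀ j, (∀ x : ℝ, ∃ T, IsBand G w A X T x (x + (1 / 3) ^ (j + 1) / 4) ∧
      c T ≤ 31104 * 9 ^ (j + 1) * k) → ∀ x : ℝ, ∃ T, IsBand G w A X T x (x + (1 / 3) ^ j / 4) ∧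
      c T ≤ 31104 * 9 ^ j * k := by
    intro j ih x
    set g : ℝ := (1 / 3) ^ (j + 1) / 4 with hgdef
    have hg : 0 < g := by positivity
    have h3g : (1 / 3 : ℝ) ^ j / 4 = 3 * g := by rw [hgdef, pow_succ]; ring
    obtain ⟨T₁, hT₁, hcT₁⟩ := ih x
    obtain ⟨T₂, hT₂, hcT₂⟩ := ih (x + 2 * g)
    have hT₂' : IsBand G w A X T₂ (x + 2 * g) (x + 3 * g) := by
      have : x + 2 * g + g = x + 3 * g := by ring
      rw [← this]; exact hT₂
    have hr : 0 < 5184 * 9 ^ j := by positivity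
    obtain ⟨T, hT, hcT⟩ := key_lemma hc hc0 h hk hr hg hT₁ hT₂'
    refine ⟨T, by rw [h3g]; exact hT, hcT.trans ?_⟩
    push_cast
    have h9 : (0 : ℝ) < 9 ^ j := by positivity
    have hgsq : g ^ 2 = 1 / (16 * 9 * 9 ^ j) := by
      rw [hgdef, div_pow, ← pow_mul]
      have : ((1 : ℝ) / 3) ^ ((j + 1) * 2) = 1 / (9 * 9 ^ j) := by
        rw [one_div, inv_pow, pow_mul', one_div]
        congr 1
        norm_num
        ring
      rw [this]; field_simp; norm_num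
    have hcoef : 1 / (5184 * 9 ^ j * g ^ 2) = (1 : ℝ) / 36 := by
      rw [hgsq]; field_simp; norm_num
    rw [hcoef]
    have hsum : c T₁ + c T₂ ≤ 2 * (31104 * 9 ^ (j + 1) * k) := by linarith
    have h10 : (9 : ℝ) ^ (j + 1) = 9 * 9 ^ j := by rw [pow_succ]; ring
    rw [h10] at hsum
    nlinarith
  rcases le_or_gt N i with hNi | hNi
  · exact hbase i hNi
  · have : ∀ d, ∀ x : ℝ, ∃ T, IsBand G w A X T x (x + (1 / 3) ^ (N - d) / 4) ∧
        c T ≤ 31104 * 9 ^ (N - d) * k := by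
      intro d
      induction d with
      | zero => exact hbase N le_rfl
      | succ d ih =>
        rcases Nat.lt_or_ge d N with hd | hd
        · have : N - d = (N - (d + 1)) + 1 := by omega
          rw [this] at ih
          exact hstep _ ih
        · have : N - (d + 1) = N - d := by omega
          rw [this]; exact ih
    have h2 := this (N - i)
    have h3 : N - (N - i) = i := by omega
    rw [h3] at h2
    exact h2

/-- **The separator theorem** (helper42, board post 1079). -/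
theorem qstar {c : Finset V → ℝ} (hc : IsCost G c) (hc0 : c ∅ ≤ 0) {w : Θ → ℝ}
    {A X : Θ → Finset V} (h : IsSep G w A X) {k : ℝ} (hk0 : 0 < k) (hk : ∀ θ, c (X θ) ≤ k)
    {o : V} (ho : ∀ θ, o ∈ A θ) {S : Finset V} (hS : ∀ z ∈ S, pr w A z ≤ 1 / 2) :
    ∃ T D : Finset V, c T ≤ 31108 * k ∧ S ⊆ D ∪ T ∧ o ∉ D ∧ o ∉ T ∧ Disjoint D T ∧
      ∀ u ∈ D, ∀ v, G.Adj u v → v ∈ D ∨ v ∈ T := by
  classical
  obtain ⟨T, hT, hcT⟩ := band_all hc hc0 h hk0 hk 0 (3 / 4)
  obtain ⟨hTr, D, hDl, hDh, hDT, hDb⟩ := hT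
  have hao : pr w A o = 1 := by
    unfold pr; simp [ho, h.sum_one]
  have hpo : pr w X o = 0 := by
    unfold pr
    refine Finset.sum_eq_zero fun θ _ => ?_
    have : o ∉ X θ := Finset.disjoint_left.mp (h.disj θ) (ho θ)
    simp [this]
  set Z : Finset V := Finset.univ.filter fun v => 1 / 4 ≤ pr w X v with hZ
  have hcZ : c Z ≤ 4 * k := by
    obtain ⟨ι, hι0, hιZ, hιU, -⟩ := hc.exch Z
    have h1 : ∑ v ∈ Z, ι v ≤ ∑ v ∈ Z, ι v * (4 * pr w X v) := by
      refine Finset.sum_le_sum fun v hv => ?_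
      have : 1 / 4 ≤ pr w X v := by
        rw [hZ] at hv; simpa using hv
      nlinarith [hι0 v]
    have h2 : ∑ v ∈ Z, ι v * (4 * pr w X v) = ∑ θ, w θ * (4 * ∑ v ∈ Z ∩ X θ, ι v) := by
      unfold pr
      simp only [Finset.mul_sum]
      rw [Finset.sum_comm]
      refine Finset.sum_congr rfl fun θ _ => ?_
      rw [← Finset.mul_sum, ← Finset.mul_sum]
      have h4 : ∑ v ∈ Z ∩ X θ, ι v = ∑ v ∈ Z, if v ∈ X θ then ι v else 0 := by
        rw [← Finset.filter_mem_eq_inter, Finset.sum_filter]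
      rw [h4, Finset.mul_sum, Finset.mul_sum]
      refine Finset.sum_congr rfl fun v _ => ?_
      split_ifs <;> ring
    have h3 : ∑ θ, w θ * (4 * ∑ v ∈ Z ∩ X θ, ι v) ≤ ∑ θ, w θ * (4 * k) := by
      refine Finset.sum_le_sum fun θ _ => mul_le_mul_of_nonneg_left ?_ (h.nonneg θ)
      have := (hιU (Z ∩ X θ) Finset.inter_subset_left).trans
        (hc.mono (Finset.inter_subset_right (s₁ := Z) (s₂ := X θ)))
      linarith [hk θ]
    rw [← Finset.sum_mul, h.sum_one, one_mul] at h3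
    linarith
  refine ⟨T ∪ Z, D \ Z, ?_, ?_, ?_, ?_, ?_, ?_⟩
  · have := hc.sub T Z
    norm_num at hcT
    linarith
  · intro z hz
    have h1 := hS z hz
    simp only [mem_union, mem_sdiff]
    by_cases hzZ : z ∈ Z
    · exact Or.inr (Or.inr hzZ)
    · have : pr w X z < 1 / 4 := by
        rw [hZ] at hzZ; simpa using hzZ
      exact Or.inl ⟨hDl z (by linarith), hzZ⟩
  · intro ho'
    rw [mem_sdiff] at ho'
    have := hDh o ho'.1
    rw [hao] at this
    norm_num at this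
  · intro ho'
    rw [mem_union] at ho'
    rcases ho' with ho' | ho'
    · have := (hTr o ho').1
      rw [hao] at this
      norm_num at this
    · rw [hZ] at ho'
      simp only [mem_filter, mem_univ, true_and, hpo] at ho'
      norm_num at ho'
  · rw [Finset.disjoint_left]
    intro v hv hv'
    rw [mem_sdiff] at hv
    rw [mem_union] at hv'
    rcases hv' with hv' | hv'
    · exact Finset.disjoint_left.mp hDT hv.1 hv'
    · exact hv.2 hv'
  · intro u hu v huv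
    rw [mem_sdiff] at hu
    rw [mem_sdiff, mem_union]
    rcases hDb u hu.1 v huv with h1 | h1
    · by_cases hvZ : v ∈ Z
      · exact Or.inr (Or.inr hvZ)
      · exact Or.inl ⟨h1, hvZ⟩
    · exact Or.inr (Or.inl h1)

end Pool.Agent.QS31
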