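import Mathlib

/-!
Second moment of a sum of independent samples, as finite sums.
-/

namespace Pool.Agent.QS31

open Finset

variable {Θ : Type*} [Fintype Θ]

/-- expectation over `r` independent samples of the weight `w` -/
noncomputable def EE (w : Θ → ℝ) (r : ℕ) (F : (Fin r → Θ) → ℝ) : ℝ :=
  ∑ ω : Fin r → Θ, (∏ i, w (ω i)) * F ω

theorem EE_succ (w : Θ → ℝ) (r : ℕ) (F : (Fin (r + 1) → Θ) → ℝ) :
    EE w (r + 1) F = ∑ θ : Θ, w θ * EE w r (fun ω => F (Fin.cons θ ω)) := by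
  classical
  unfold EE
  rw [← (Fin.consEquiv (fun _ : Fin (r + 1) => Θ)).sum_comp, Fintype.sum_prod_type]
  refine Finset.sum_congr rfl fun θ _ => ?_
  rw [Finset.mul_sum]
  refine Finset.sum_congr rfl fun ω _ => ?_
  have h : (Fin.consEquiv (fun _ : Fin (r + 1) => Θ)) (θ, ω) =
      (Fin.cons θ ω : Fin (r + 1) → Θ) := rfl
  rw [h]
  simp only [Fin.prod_univ_succ, Fin.cons_zero, Fin.cons_succ]
  ring

theorem EE_add (w : Θ → ℝ) (r : ℕ) (F H : (Fin r → Θ) → ℝ) :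
    EE w r (fun ω => F ω + H ω) = EE w r F + EE w r H := by
  unfold EE
  rw [← Finset.sum_add_distrib]
  exact Finset.sum_congr rfl fun ω _ => by ring

theorem EE_smul (w : Θ → ℝ) (r : ℕ) (c : ℝ) (F : (Fin r → Θ) → ℝ) :
    EE w r (fun ω => c * F ω) = c * EE w r F := by
  unfold EE
  rw [Finset.mul_sum]
  exact Finset.sum_congr rfl fun ω _ => by ring

theorem EE_sum {κ : Type*} (w : Θ → ℝ) (r : ℕ) (s : Finset κ) (F : κ → (Fin r → Θ) → ℝ) :
    EE w r (fun ω => ∑ k ∈ s, F k ω) = ∑ k ∈ s, EE w r (F k) := by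
  unfold EE
  rw [Finset.sum_comm]
  exact Finset.sum_congr rfl fun ω _ => by rw [Finset.mul_sum]

theorem EE_mono {w : Θ → ℝ} (hw : ∀ θ, 0 ≤ w θ) {r : ℕ} {F H : (Fin r → Θ) → ℝ}
    (h : ∀ ω, F ω ≤ H ω) : EE w r F ≤ EE w r H := by
  unfold EE
  exact Finset.sum_le_sum fun ω _ =>
    mul_le_mul_of_nonneg_left (h ω) (Finset.prod_nonneg fun i _ => hw _)

theorem EE_one {w : Θ → ℝ} (h1 : ∑ θ, w θ = 1) (r : ℕ) : EE w r (fun _ => 1) = 1 := by
  induction r with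
  | zero => simp [EE]
  | succ r ih => rw [EE_succ]; simp only [ih, mul_one, h1]

theorem EE_const {w : Θ → ℝ} (h1 : ∑ θ, w θ = 1) (r : ℕ) (c : ℝ) :
    EE w r (fun _ => c) = c := by
  have := EE_smul w r c (fun _ => 1)
  simp only [mul_one] at this
  rw [this, EE_one h1, mul_one]

theorem EE_lin {w : Θ → ℝ} (h1 : ∑ θ, w θ = 1) {Y : Θ → ℝ} (hY : ∑ θ, w θ * Y θ = 0) (r : ℕ) :
    EE w r (fun ω => ∑ i, Y (ω i)) = 0 := by
  induction r with
  | zero => simp [EE]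
  | succ r ih =>
    rw [EE_succ]
    have : ∀ θ, EE w r (fun ω => ∑ i, Y ((Fin.cons θ ω : Fin (r + 1) → Θ) i)) = Y θ := by
      intro θ
      have : (fun ω : Fin r → Θ => ∑ i, Y ((Fin.cons θ ω : Fin (r + 1) → Θ) i)) =
          fun ω => Y θ + ∑ i, Y (ω i) := by
        funext ω; rw [Fin.sum_univ_succ]; simp
      rw [this, EE_add, EE_const h1, ih, add_zero]
    simp only [this, hY]

theorem EE_sq {w : Θ → ℝ} (h1 : ∑ θ, w θ = 1) {Y : Θ → ℝ} (hY : ∑ θ, w θ * Y θ = 0) (r : ℕ) :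
    EE w r (fun ω => (∑ i, Y (ω i)) ^ 2) = r * ∑ θ, w θ * (Y θ) ^ 2 := by
  induction r with
  | zero => simp [EE]
  | succ r ih =>
    rw [EE_succ]
    have : ∀ θ, EE w r (fun ω => (∑ i, Y ((Fin.cons θ ω : Fin (r + 1) → Θ) i)) ^ 2) =
        (Y θ) ^ 2 + r * ∑ θ, w θ * (Y θ) ^ 2 := by
      intro θ
      have : (fun ω : Fin r → Θ => (∑ i, Y ((Fin.cons θ ω : Fin (r + 1) → Θ) i)) ^ 2) =
          fun ω => ((Y θ) ^ 2 + (2 * Y θ) * ∑ i, Y (ω i)) + (∑ i, Y (ω i)) ^ 2 := by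
        funext ω; rw [Fin.sum_univ_succ]; simp only [Fin.cons_zero, Fin.cons_succ]; ring
      rw [this, EE_add, EE_add, EE_const h1, EE_smul, EE_lin h1 hY, ih]; ring
    simp only [this, mul_add, Finset.sum_add_distrib]
    rw [← Finset.sum_mul, h1]; push_cast; ring

/-- there is a sample with at most the expected value -/
theorem exists_le_EE {w : Θ → ℝ} (hw : ∀ θ, 0 ≤ w θ) (h1 : ∑ θ, w θ = 1) {r : ℕ}
    (F : (Fin r → Θ) → ℝ) {B : ℝ} (hB : EE w r F ≤ B) : ∃ ω, F ω ≤ B := by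
  by_contra hcon
  push Not at hcon
  have hne : Nonempty (Fin r → Θ) := by
    by_contra hemp
    rw [not_nonempty_iff] at hemp
    have h := EE_one h1 r
    unfold EE at h
    rw [Finset.univ_eq_empty, Finset.sum_empty] at h
    exact zero_ne_one h
  obtain ⟨ω₀, hω₀⟩ := Finite.exists_min F
  have h2 : EE w r (fun _ => F ω₀) ≤ EE w r F := EE_mono hw fun ω => hω₀ ω
  rw [EE_const h1] at h2
  have := hcon ω₀
  linarith

/-- Chebyshev for the number of samples with a property, upper side -/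
theorem cheb_up {w : Θ → ℝ} (hw : ∀ θ, 0 ≤ w θ) (h1 : ∑ θ, w θ = 1) (P : Θ → Prop)
    [DecidablePred P] {r : ℕ} (hr : 0 < r) {a m g : ℝ} (ha : a = ∑ θ, w θ * (if P θ then 1 else 0))
    (hg : 0 < g) (ham : a + g / 2 ≤ m) :
    EE w r (fun ω => if r * m ≤ ∑ i, (if P (ω i) then (1 : ℝ) else 0) then 1 else 0)
      ≤ 1 / (r * g ^ 2) := by
  have hr' : (0 : ℝ) < r := by exact_mod_cast hr
  set Y : Θ → ℝ := fun θ => (if P θ then (1 : ℝ) else 0) - a with hYdef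
  have hY : ∑ θ, w θ * Y θ = 0 := by
    simp only [hYdef, mul_sub, Finset.sum_sub_distrib]
    rw [← Finset.sum_mul, h1, one_mul, ← ha, sub_self]
  have hvar : ∑ θ, w θ * (Y θ) ^ 2 ≤ 1 / 4 := by
    have : ∑ θ, w θ * (Y θ) ^ 2 = a * (1 - a) := by
      have h3 : ∀ θ, w θ * (Y θ) ^ 2 =
          w θ * (if P θ then (1 : ℝ) else 0) * (1 - 2 * a) + w θ * a ^ 2 := by
        intro θ; simp only [hYdef]; split_ifs <;> ring
      simp only [h3, Finset.sum_add_distrib, ← Finset.sum_mul]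
      rw [← ha, h1]; ring
    rw [this]; nlinarith [sq_nonneg (a - 1 / 2)]
  have hsum : ∀ ω : Fin r → Θ, ∑ i, Y (ω i) =
      ∑ i, (if P (ω i) then (1 : ℝ) else 0) - r * a := by
    intro ω; simp [hYdef, Finset.sum_sub_distrib]
  have hle : ∀ ω : Fin r → Θ,
      (if r * m ≤ ∑ i, (if P (ω i) then (1 : ℝ) else 0) then (1 : ℝ) else 0) ≤
        (4 / (r ^ 2 * g ^ 2)) * (∑ i, Y (ω i)) ^ 2 := by
    intro ω
    split_ifs with h
    · have h4 : r * g / 2 ≤ ∑ i, Y (ω i) := by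
        rw [hsum]; nlinarith
      have h5 : (r * g / 2) ^ 2 ≤ (∑ i, Y (ω i)) ^ 2 :=
        pow_le_pow_left₀ (by positivity) h4 2
      rw [div_mul_eq_mul_div, le_div_iff₀ (by positivity)]
      nlinarith
    · positivity
  refine (EE_mono hw hle).trans ?_
  rw [EE_smul, EE_sq h1 hY]
  rw [div_mul_eq_mul_div, div_le_div_iff₀ (by positivity) (by positivity)]
  have h6 : (r : ℝ) * ∑ θ, w θ * (Y θ) ^ 2 ≤ r * (1 / 4) := by gcongr
  have h7 : 4 * (r * ∑ θ, w θ * (Y θ) ^ 2) ≤ r := by linarith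
  calc 4 * (r * ∑ θ, w θ * (Y θ) ^ 2) * (r * g ^ 2) ≤ r * (r * g ^ 2) := by
        apply mul_le_mul_of_nonneg_right h7 (by positivity)
    _ = 1 * (r ^ 2 * g ^ 2) := by ring

/-- Chebyshev for the number of samples with a property, lower side -/
theorem cheb_down {w : Θ → ℝ} (hw : ∀ θ, 0 ≤ w θ) (h1 : ∑ θ, w θ = 1) (P : Θ → Prop)
    [DecidablePred P] {r : ℕ} (hr : 0 < r) {a m g : ℝ} (ha : a = ∑ θ, w θ * (if P θ then 1 else 0))
    (hg : 0 < g) (ham : m + g / 2 ≤ a) :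
    EE w r (fun ω => if ∑ i, (if P (ω i) then (1 : ℝ) else 0) < r * m then 1 else 0)
      ≤ 1 / (r * g ^ 2) := by
  have hr' : (0 : ℝ) < r := by exact_mod_cast hr
  set Y : Θ → ℝ := fun θ => (if P θ then (1 : ℝ) else 0) - a with hYdef
  have hY : ∑ θ, w θ * Y θ = 0 := by
    simp only [hYdef, mul_sub, Finset.sum_sub_distrib]
    rw [← Finset.sum_mul, h1, one_mul, ← ha, sub_self]
  have hvar : ∑ θ, w θ * (Y θ) ^ 2 ≤ 1 / 4 := by
    have : ∑ θ, w θ * (Y θ) ^ 2 = a * (1 - a) := by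
      have h3 : ∀ θ, w θ * (Y θ) ^ 2 =
          w θ * (if P θ then (1 : ℝ) else 0) * (1 - 2 * a) + w θ * a ^ 2 := by
        intro θ; simp only [hYdef]; split_ifs <;> ring
      simp only [h3, Finset.sum_add_distrib, ← Finset.sum_mul]
      rw [← ha, h1]; ring
    rw [this]; nlinarith [sq_nonneg (a - 1 / 2)]
  have hsum : ∀ ω : Fin r → Θ, ∑ i, Y (ω i) =
      ∑ i, (if P (ω i) then (1 : ℝ) else 0) - r * a := by
    intro ω; simp [hYdef, Finset.sum_sub_distrib]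
  have hle : ∀ ω : Fin r → Θ,
      (if ∑ i, (if P (ω i) then (1 : ℝ) else 0) < r * m then (1 : ℝ) else 0) ≤
        (4 / (r ^ 2 * g ^ 2)) * (∑ i, Y (ω i)) ^ 2 := by
    intro ω
    split_ifs with h
    · have h4 : r * g / 2 ≤ -∑ i, Y (ω i) := by
        rw [hsum]; nlinarith
      have h5 : (r * g / 2) ^ 2 ≤ (-∑ i, Y (ω i)) ^ 2 :=
        pow_le_pow_left₀ (by positivity) h4 2
      rw [neg_sq] at h5
      rw [div_mul_eq_mul_div, le_div_iff₀ (by positivity)]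
      nlinarith
    · positivity
  refine (EE_mono hw hle).trans ?_
  rw [EE_smul, EE_sq h1 hY]
  rw [div_mul_eq_mul_div, div_le_div_iff₀ (by positivity) (by positivity)]
  have h6 : (r : ℝ) * ∑ θ, w θ * (Y θ) ^ 2 ≤ r * (1 / 4) := by gcongr
  have h7 : 4 * (r * ∑ θ, w θ * (Y θ) ^ 2) ≤ r := by linarith
  calc 4 * (r * ∑ θ, w θ * (Y θ) ^ 2) * (r * g ^ 2) ≤ r * (r * g ^ 2) := by
        apply mul_le_mul_of_nonneg_right h7 (by positivity)
    _ = 1 * (r ^ 2 * g ^ 2) := by ring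

end Pool.Agent.QS31
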